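import Pool.Agent.Lib_helper18.PENK.Defs2

/-!
# PENT (MP_892e4c_nt): the near-diagonal pairs of paths, class (i) (helper96)

Paths `u_0 = (1,0), u_1, ..., u_9, u_10 = (0,1)` as closed 11-gons (`PolyK 11`); the edge `10` (from `u_10`
to `u_0`) is open: `dn u 10 = 1`. The base edge is any `b : Fin 11`; `b = 10` is the form itself.
All indices are taken in `Fin 11` (cyclically).
-/

set_option autoImplicit false

namespace Pool.Agent.PNI

open Finset Pool.Agent.PENT Pool.Agent.PENK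

/-- the parameters: `x ^ lo j ≤ |u_j| ≤ x ^ hi j` -/
structure Prm where
  lo : Fin 11 → ℝ
  hi : Fin 11 → ℝ
  ε : ℝ
  c3 : ℝ

/-- the conditions which are symmetric under reflection -/
structure Prm.Ok (q : Prm) : Prop where
  ε0 : 0 < q.ε
  c30 : 0 < q.c3
  c31 : q.c3 ≤ 1
  l0 : q.lo 0 = 0
  h0 : q.hi 0 = 0
  l10 : q.lo 10 = 0
  h10 : q.hi 10 = 0
  le : ∀ j, q.lo j ≤ q.hi j
  sm : ∑ j, q.hi j ≤ 1 / 10
  pos : ∀ j, j ≠ 0 → j ≠ 10 → 4 * q.ε ≤ q.lo j
  nar : ∀ j, j ≠ 1 → j ≠ 9 → q.hi j ≤ q.lo j + q.ε / 50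
  /-- the even vertices are tiny -/
  tiny : ∀ o : Fin 11, o.val % 2 = 1 →
    4 * (q.hi 2 + q.hi 4 + q.hi 6 + q.hi 8) + 4 * q.ε ≤ q.lo o
  /-- `u_3, u_5, u_7` are large -/
  big : ∀ i o e : Fin 11, i = 3 ∨ i = 5 ∨ i = 7 → o.val % 2 = 1 → e.val % 2 = 0 →
    q.hi o + q.hi e + 4 * q.ε ≤ 2 * q.lo i

/-- `u_8` is tiny compared with `u_2, u_4, u_6` -/
def Prm.E8 (q : Prm) : Prop := ∀ e : Fin 11, e = 2 ∨ e = 4 ∨ e = 6 → q.hi 8 + 4 * q.ε ≤ q.lo e

/-- all windows are narrow -/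
def Prm.Nar (q : Prm) : Prop := ∀ j, q.hi j ≤ q.lo j + q.ε / 50

/-- the paths -/
structure IsPt (q : Prm) (x : ℝ) (u : PolyK 11) : Prop where
  f0 : u 0 = (1, 0)
  f1 : u 10 = (0, 1)
  lo : ∀ j, x ^ q.lo j ≤ (nr (u j) : ℝ)
  hi : ∀ j, (nr (u j) : ℝ) ≤ x ^ q.hi j
  sg : ∀ i j, i < j → 0 < dt (u i) (u j)
  sep : ∀ i j, i ≠ j → q.c3 * nr (u i) * nr (u j) ≤ |(dt (u i) (u j) : ℝ)|
  sq : ∀ j, Squarefree (dn u j)
  co : ∀ i j, i ≠ j → Nat.Coprime (dn u i) (dn u j)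
  nd : ∀ j k, k ≠ j → k ≠ j + 1 → Nat.Coprime (dn u j) (dt (u j) (u k)).natAbs

/-- the vertex `u_k` in the frame of the base edge `b` -/
def cb (b : Fin 11) (u : PolyK 11) (k : Fin 11) : ℤ × ℤ :=
  (dt (u k) (u (b + 1)), dt (u b) (u k))

/-- the vertices off the base -/
def nb (b : Fin 11) : Finset (Fin 11) := univ.filter (fun k => k ≠ b ∧ k ≠ b + 1)

/-- the edges which are neither special nor ... : all edges except `b - 1`, `b + 1` -/
def ib (b : Fin 11) : Finset (Fin 11) := univ.filter (fun l => l ≠ b - 1 ∧ l ≠ b + 1)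

/-- the vertices on the line of a prime dividing the edge `i` -/
def vx (b i : Fin 11) : Finset (Fin 11) := if i = b then univ else {i, i + 1}

/-- `p` divides the edge `i` of `u` and the edge `l` of `v`, on the same line in the frames of the
base `b` -/
def CL (b : Fin 11) (u v : PolyK 11) (i l : Fin 11) (p : ℕ) : Prop :=
  p ∣ dn u i ∧ p ∣ dn v l ∧ ∀ m ∈ vx b i, ∀ m' ∈ vx b l, (p : ℤ) ∣ dt (cb b u m) (cb b v m')

open Classical in
/-- the common part of the edge `i` of `u` and the edge `l` of `v` -/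
noncomputable def dil (b : Fin 11) (u v : PolyK 11) (i l : Fin 11) : ℕ :=
  ∏ p ∈ ((dn u i).gcd (dn v l)).primeFactors.filter (CL b u v i l), p

open Classical in
/-- the part of the edge `l` of `v` which is common with `u` -/
noncomputable def gl (b : Fin 11) (u v : PolyK 11) (l : Fin 11) : ℕ :=
  ∏ p ∈ (dn v l).primeFactors.filter (fun p => ∃ i, CL b u v i l p), p

/-- the total common part -/
noncomputable def GT (b : Fin 11) (u v : PolyK 11) : ℕ := ∏ l, gl b u v l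

/-- the common part of the edges which are not special -/
noncomputable def GI (b : Fin 11) (u v : PolyK 11) : ℕ := ∏ l ∈ ib b, gl b u v l

/-- near-full pairs -/
structure NP (q : Prm) (x : ℝ) (b : Fin 11) (u v : PolyK 11) : Prop where
  pu : IsPt q x u
  pv : IsPt q x v
  nu : ∀ l, (dn u l : ℝ) ≤ x ^ (q.ε / 10) * gl b v u l
  nv : ∀ l, (dn v l : ℝ) ≤ x ^ (q.ε / 10) * gl b u v l

/-- the reflection -/
def rf (u : PolyK 11) : PolyK 11 := fun j => ((u (10 - j)).2, (u (10 - j)).1)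

/-- reflected parameters -/
def Prm.rv (q : Prm) : Prm := ⟨fun j => q.lo (10 - j), fun j => q.hi (10 - j), q.ε, q.c3⟩

/-- the family of the crude count: `v` in the cell `I` with common parts `G` -/
structure CS (q : Prm) (x : ℝ) (b : Fin 11) (u : PolyK 11) (I G : Fin 11 → ℕ) (v : PolyK 11) :
    Prop where
  pt : IsPt q x v
  siz : Siz I v
  g : ∀ l, gl b u v l = G l

/-- the factor of the vertex `l` in the crude count -/
noncomputable def Rt (b y z : Fin 11) (I G : Fin 11 → ℕ) (l : Fin 11) : ℝ :=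
  if l = y ∨ l = z then 2 ^ I b * 2 ^ I (b + 1) * (2 ^ I l) ^ 2 / (G b * G (l - 1) * G l) + 1
  else (2 ^ I l) ^ 2 / ((G (l - 1) : ℝ) * G l) + 1

/-- the exponent of the relative weight -/
noncomputable def phi (b y z : Fin 11) (e g : Fin 11 → ℝ) : ℝ :=
  ∑ i, (g i - e i - e (i + 1)) + ∑ l ∈ nb b, max 0 (2 * e l - g (l - 1) - g l +
    if l = y ∨ l = z then e b + e (b + 1) - g b else 0)

/-- admissible exponents -/
structure Adm (τ : ℝ) (e g : Fin 11 → ℝ) : Prop where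
  e0 : e 0 = 0
  e10 : e 10 = 0
  e1 : ∀ j, j ≠ 0 → j ≠ 10 → τ ≤ e j
  e2 : ∀ j, e j ≤ 1
  eo : ∀ j o : Fin 11, j.val % 2 = 0 → o.val % 2 = 1 → 4 * e j ≤ e o
  g0 : ∀ i, 0 ≤ g i
  g1 : ∀ i, g i ≤ e i + e (i + 1)

/-- the even end of an edge -/
def ev (j : Fin 11) : Fin 11 := if j.val % 2 = 0 then j else j + 1

/-- the data of the master count: a path `s.1`, a vector `w = s.2.1` in the frame of the base `b`, numbers
`g_j = s.2.2 j ∣ dn u j`; the vertices in `O` (odd, off the base) are parallel to `w` modulo the `g` of their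
two edges, and the even vertices are not parallel to `w` -/
structure MD (q : Prm) (x : ℝ) (b : Fin 11) (O : Finset (Fin 11)) (I : Fin 11 → ℕ)
    (s : PolyK 11 × (ℤ × ℤ) × (Fin 11 → ℕ)) : Prop where
  pt : IsPt q x s.1
  siz : Siz I s.1
  wp : Int.gcd s.2.1.1 s.2.1.2 = 1
  wb : |(s.2.1.1 : ℝ)| ≤ x ∧ |(s.2.1.2 : ℝ)| ≤ x
  dv : ∀ j, s.2.2 j ∣ dn s.1 j
  par : ∀ i ∈ O, (s.2.2 (i - 1) : ℤ) ∣ dt (cb b s.1 i) s.2.1 ∧
    (s.2.2 i : ℤ) ∣ dt (cb b s.1 i) s.2.1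
  evd : ∀ i ∈ O, ∀ j, j = i - 1 ∨ j = i → (s.2.2 j : ℤ) ∣ dt (cb b s.1 (ev j)) s.2.1 ∧
    dt (cb b s.1 (ev j)) s.2.1 ≠ 0

/-- the vertices off `O` -/
def fE (O : Finset (Fin 11)) (s : PolyK 11 × (ℤ × ℤ) × (Fin 11 → ℕ)) : PolyK 11 :=
  fun j => if j ∈ O then (0, 0) else s.1 j

/-- the numbers `g_j` of the edges without end in `O` -/
def fK (O : Finset (Fin 11)) (s : PolyK 11 × (ℤ × ℤ) × (Fin 11 → ℕ)) : Fin 11 → ℕ :=
  fun j => if j ∈ O ∨ j + 1 ∈ O then 0 else s.2.2 j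

/-- rotation: the base edge becomes the edge `0` -/
def rot (b : Fin 11) (u : PolyK 11) : PolyK 11 := fun j => u (j + b)

end Pool.Agent.PNI
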